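import Mathlib

set_option autoImplicit false

namespace Pool.Agent.Results.MP_7a8221_co.OneHandedL

open Finset

/-- The cell `[i,i+1] × [j,j+1]` is represented by `(i,j)`. `rot` is the quarter turn about the
centre of the cell `(0,0)`. -/
def rot (p : ℤ × ℤ) : ℤ × ℤ := (-p.2, p.1)

/-- The L-tetromino: three cells in a row and one extra cell above an end cell (`c = true`), and its
mirror image (`c = false`). -/
def base (c : Bool) : Finset (ℤ × ℤ) :=
  if c then {(0, 0), (1, 0), (2, 0), (0, 1)} else {(0, 0), (1, 0), (2, 0), (0, -1)}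

/-- The image of `base c` under `k` quarter turns and the translation by `v`. -/
def tile (c : Bool) (k : ℕ) (v : ℤ × ℤ) : Finset (ℤ × ℤ) := (base c).image fun p => rot^[k] p + v

/-- `T` is an L-tetromino of the orientation class `c`. -/
def IsCopy (c : Bool) (T : Finset (ℤ × ℤ)) : Prop := ∃ (k : ℕ) (v : ℤ × ℤ), T = tile c k v

/-- The cells of the `m × n` rectangle. -/
noncomputable def rect (m n : ℕ) : Finset (ℤ × ℤ) := Finset.Ico 0 (m : ℤ) ×ˢ Finset.Ico 0 (n : ℤ)

/-- `F` is a tiling of the region `R` by L-tetrominoes of the orientation class `c`. -/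
def IsTiling (c : Bool) (R : Finset (ℤ × ℤ)) (F : Finset (Finset (ℤ × ℤ))) : Prop :=
  (∀ T ∈ F, IsCopy c T) ∧ (∀ T ∈ F, ∀ T' ∈ F, T ≠ T' → Disjoint T T') ∧ F.biUnion id = R

/-- The `m × n` rectangle has a tiling by L-tetrominoes all of the same orientation. -/
def OneHanded (m n : ℕ) : Prop := ∃ (c : Bool) (F : Finset (Finset (ℤ × ℤ))), IsTiling c (rect m n) F

/-! ### Rotations -/

theorem rot_four (p : ℤ × ℤ) : rot^[4] p = p := by
  simp [rot]

theorem rot_iter_mod (k : ℕ) (p : ℤ × ℤ) : rot^[k] p = rot^[k % 4] p := by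
  conv_lhs => rw [← Nat.mod_add_div k 4]
  rw [Function.iterate_add_apply]
  congr 1
  induction k / 4 with
  | zero => simp
  | succ j ih => rw [Nat.mul_succ, Function.iterate_add_apply, rot_four, ih]

theorem tile_mod (c : Bool) (k : ℕ) (v : ℤ × ℤ) : tile c k v = tile c (k % 4) v := by
  unfold tile
  congr 1
  funext p
  rw [rot_iter_mod]

theorem rot_inj : Function.Injective rot := by
  rintro ⟨a, b⟩ ⟨c, d⟩ h
  simp only [rot, Prod.mk.injEq] at h
  ext <;> simp only <;> omega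

theorem rot_iter_inj (k : ℕ) (v : ℤ × ℤ) : Function.Injective fun p => rot^[k] p + v :=
  fun _ _ h => (rot_inj.iterate k) (add_right_cancel h)

/-- explicit cells -/
theorem mem_tile (c : Bool) (k : ℕ) (v p : ℤ × ℤ) : p ∈ tile c k v ↔ ∃ q ∈ base c, rot^[k] q + v = p := by
  simp [tile]

theorem sum_tile (c : Bool) (k : ℕ) (v : ℤ × ℤ) (w : ℤ × ℤ → ℤ) :
    ∑ p ∈ tile c k v, w p = ∑ q ∈ base c, w (rot^[k] q + v) :=
  Finset.sum_image fun _ _ _ _ h => rot_iter_inj k v h

theorem card_tile (c : Bool) (k : ℕ) (v : ℤ × ℤ) : (tile c k v).card = 4 := by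
  rw [tile, Finset.card_image_of_injective _ (rot_iter_inj k v)]
  cases c <;> decide

/-! ### Constructions -/

theorem tiling_union {c : Bool} {R₁ R₂ : Finset (ℤ × ℤ)} {F₁ F₂ : Finset (Finset (ℤ × ℤ))}
    (h₁ : IsTiling c R₁ F₁) (h₂ : IsTiling c R₂ F₂) (hd : Disjoint R₁ R₂) :
    IsTiling c (R₁ ∪ R₂) (F₁ ∪ F₂) := by
  obtain ⟨a₁, b₁, e₁⟩ := h₁
  obtain ⟨a₂, b₂, e₂⟩ := h₂
  have s₁ : ∀ T ∈ F₁, T ⊆ R₁ := fun T hT => e₁ ▸ Finset.subset_biUnion_of_mem id hT
  have s₂ : ∀ T ∈ F₂, T ⊆ R₂ := fun T hT => e₂ ▸ Finset.subset_biUnion_of_mem id hT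
  refine ⟨?_, ?_, ?_⟩
  · intro T hT
    rcases Finset.mem_union.mp hT with h | h
    · exact a₁ T h
    · exact a₂ T h
  · intro T hT T' hT' hne
    rcases Finset.mem_union.mp hT with h | h <;> rcases Finset.mem_union.mp hT' with h' | h'
    · exact b₁ T h T' h' hne
    · exact Finset.disjoint_of_subset_left (s₁ T h) (Finset.disjoint_of_subset_right (s₂ T' h') hd)
    · exact (Finset.disjoint_of_subset_left (s₁ T' h')
        (Finset.disjoint_of_subset_right (s₂ T h) hd)).symm
    · exact b₂ T h T' h' hne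
  · rw [Finset.union_biUnion, e₁, e₂]

theorem tiling_map {c : Bool} {R : Finset (ℤ × ℤ)} {F : Finset (Finset (ℤ × ℤ))}
    (h : IsTiling c R F) (g : ℤ × ℤ → ℤ × ℤ) (hg : Function.Injective g)
    (hc : ∀ T, IsCopy c T → IsCopy c (T.image g)) :
    IsTiling c (R.image g) (F.image fun T => T.image g) := by
  obtain ⟨a, b, e⟩ := h
  refine ⟨?_, ?_, ?_⟩
  · intro T hT
    obtain ⟨T₀, h₀, rfl⟩ := Finset.mem_image.mp hT
    exact hc _ (a _ h₀)
  · intro T hT T' hT' hne
    obtain ⟨T₀, h₀, rfl⟩ := Finset.mem_image.mp hT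
    obtain ⟨T₁, h₁, rfl⟩ := Finset.mem_image.mp hT'
    rw [Finset.disjoint_image hg]
    exact b _ h₀ _ h₁ fun h => hne (by rw [h])
  · rw [← e]
    ext p
    simp only [Finset.mem_biUnion, Finset.mem_image, id_eq]
    constructor
    · rintro ⟨T, ⟨T₀, h₀, rfl⟩, hp⟩
      obtain ⟨q, hq, rfl⟩ := Finset.mem_image.mp hp
      exact ⟨q, ⟨T₀, h₀, hq⟩, rfl⟩
    · rintro ⟨q, ⟨T₀, h₀, hq⟩, rfl⟩
      exact ⟨_, ⟨T₀, h₀, rfl⟩, Finset.mem_image_of_mem g hq⟩

theorem copy_add {c : Bool} (w : ℤ × ℤ) (T : Finset (ℤ × ℤ)) (h : IsCopy c T) :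
    IsCopy c (T.image fun p => p + w) := by
  obtain ⟨k, v, rfl⟩ := h
  refine ⟨k, v + w, ?_⟩
  rw [tile, tile, Finset.image_image]
  congr 1
  funext p
  simp only [Function.comp_apply, add_assoc]

theorem copy_rot {c : Bool} (T : Finset (ℤ × ℤ)) (h : IsCopy c T) : IsCopy c (T.image rot) := by
  obtain ⟨k, v, rfl⟩ := h
  refine ⟨k + 1, rot v, ?_⟩
  rw [tile, tile, Finset.image_image]
  congr 1
  funext p
  rw [Function.comp_apply, Function.iterate_succ_apply']
  simp only [rot, Prod.mk_add_mk, Prod.fst_add, Prod.snd_add]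
  ext <;> simp only <;> ring

theorem rect_add (m₁ m₂ n : ℕ) :
    rect (m₁ + m₂) n = rect m₁ n ∪ (rect m₂ n).image fun p => p + ((m₁ : ℤ), (0 : ℤ)) := by
  ext ⟨x, y⟩
  simp only [rect, Finset.mem_union, Finset.mem_product, Finset.mem_Ico, Finset.mem_image,
    Prod.exists, Prod.mk_add_mk, Prod.mk.injEq]
  push_cast
  constructor
  · rintro ⟨⟨h1, h2⟩, h3, h4⟩
    rcases lt_or_ge x m₁ with h | h
    · exact Or.inl ⟨⟨h1, h⟩, h3, h4⟩
    · exact Or.inr ⟨x - m₁, y, ⟨⟨by omega, by omega⟩, h3, h4⟩, by omega, by omega⟩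
  · rintro (⟨⟨h1, h2⟩, h3, h4⟩ | ⟨x', y', ⟨⟨h1, h2⟩, h3, h4⟩, h5, h6⟩)
    · exact ⟨⟨h1, by omega⟩, h3, h4⟩
    · exact ⟨⟨by omega, by omega⟩, by omega, by omega⟩

theorem tiling_add {c : Bool} {m₁ m₂ n : ℕ} (h₁ : ∃ F, IsTiling c (rect m₁ n) F)
    (h₂ : ∃ F, IsTiling c (rect m₂ n) F) : ∃ F, IsTiling c (rect (m₁ + m₂) n) F := by
  obtain ⟨F₁, h₁⟩ := h₁
  obtain ⟨F₂, h₂⟩ := h₂
  have h₃ := tiling_map h₂ (fun p => p + ((m₁ : ℤ), (0 : ℤ))) (add_left_injective _) (copy_add _)
  rw [rect_add]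
  refine ⟨_, tiling_union h₁ h₃ ?_⟩
  rw [Finset.disjoint_left]
  rintro ⟨x, y⟩ h h'
  simp only [rect, Finset.mem_product, Finset.mem_Ico, Finset.mem_image,
    Prod.exists, Prod.mk_add_mk, Prod.mk.injEq] at h h'
  obtain ⟨x', y', ⟨⟨_, _⟩, _, _⟩, _, _⟩ := h'
  omega

theorem tiling_rot {c : Bool} {m n : ℕ} (h : ∃ F, IsTiling c (rect m n) F) :
    ∃ F, IsTiling c (rect n m) F := by
  obtain ⟨F, h⟩ := h
  have h₁ := tiling_map (tiling_map h rot rot_inj copy_rot) (fun p => p + ((n : ℤ) - 1, (0 : ℤ)))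
    (add_left_injective _) (copy_add _)
  have : ((rect m n).image rot).image (fun p => p + ((n : ℤ) - 1, (0 : ℤ))) = rect n m := by
    ext ⟨x, y⟩
    simp only [rect, rot, Finset.mem_product, Finset.mem_Ico, Finset.mem_image,
      Prod.exists, Prod.mk.injEq]
    constructor
    · rintro ⟨a, b, ⟨a', b', ⟨⟨h1, h2⟩, h3, h4⟩, h5, h6⟩, h7⟩
      simp only [Prod.mk_add_mk, Prod.mk.injEq] at h7
      omega
    · rintro ⟨⟨h1, h2⟩, h3, h4⟩
      refine ⟨x - (n - 1), y, ⟨y, n - 1 - x, ⟨⟨by omega, by omega⟩, by omega, by omega⟩, by omega,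
        by omega⟩, ?_⟩
      simp only [Prod.mk_add_mk, Prod.mk.injEq]
      omega
  rw [this] at h₁
  exact ⟨_, h₁⟩

theorem tiling_zero (c : Bool) (n : ℕ) : ∃ F, IsTiling c (rect 0 n) F := by
  refine ⟨∅, ?_, ?_, ?_⟩
  · simp
  · simp
  · simp [rect]

theorem tiling_mul {c : Bool} {m n : ℕ} (h : ∃ F, IsTiling c (rect m n) F) (k : ℕ) :
    ∃ F, IsTiling c (rect (m * k) n) F := by
  induction k with
  | zero => exact tiling_zero c n
  | succ k ih =>
    rw [Nat.mul_succ]
    exact tiling_add ih h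

/-- the two tiles of the `2 × 4` rectangle -/
def F24 : Finset (Finset (ℤ × ℤ)) := {tile true 1 (1, 0), tile true 3 (0, 3)}

theorem tiling24 : IsTiling true (rect 2 4) F24 := by
  refine ⟨?_, ?_, ?_⟩
  · intro T hT
    simp only [F24, Finset.mem_insert, Finset.mem_singleton] at hT
    rcases hT with rfl | rfl
    · exact ⟨_, _, rfl⟩
    · exact ⟨_, _, rfl⟩
  · decide +kernel
  · decide +kernel

/-- the ten tiles of the `5 × 8` rectangle -/
def F58 : Finset (Finset (ℤ × ℤ)) :=
  {tile true 0 (0, 0), tile true 1 (4, 0), tile true 1 (2, 1), tile true 3 (3, 3),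
    tile true 1 (1, 2), tile true 3 (0, 5), tile true 0 (2, 4), tile true 1 (4, 5),
    tile true 0 (0, 6), tile true 2 (3, 7)}

theorem tiling58 : IsTiling true (rect 5 8) F58 := by
  refine ⟨?_, ?_, ?_⟩
  · intro T hT
    simp only [F58, Finset.mem_insert, Finset.mem_singleton] at hT
    rcases hT with rfl | rfl | rfl | rfl | rfl | rfl | rfl | rfl | rfl | rfl <;>
      exact ⟨_, _, rfl⟩
  · decide +kernel
  · decide +kernel

/-- the sufficiency -/
theorem exists_tiling (m n : ℕ) (hm : 2 ≤ m) (hn : 2 ≤ n) (hm3 : m ≠ 3) (hn3 : n ≠ 3)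
    (h8 : 8 ∣ m * n) : ∃ F, IsTiling true (rect m n) F := by
  -- even times a multiple of four
  have A : ∀ a b : ℕ, ∃ F, IsTiling true (rect (2 * a) (4 * b)) F := by
    intro a b
    have h1 : ∃ F, IsTiling true (rect (2 * a) 4) F := tiling_mul ⟨_, tiling24⟩ a
    exact tiling_rot (tiling_mul (tiling_rot h1) b)
  -- odd at least five times a multiple of eight
  have B : ∀ a b : ℕ, ∃ F, IsTiling true (rect (5 + 2 * a) (8 * b)) F := by
    intro a b
    have h1 : ∃ F, IsTiling true (rect 5 (8 * b)) F :=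
      tiling_rot (tiling_mul (tiling_rot ⟨_, tiling58⟩) b)
    have h2 := A a (2 * b)
    rw [show 4 * (2 * b) = 8 * b by ring] at h2
    exact tiling_add h1 h2
  rcases Nat.even_or_odd m with he | ho
  · rcases Nat.even_or_odd n with he' | ho'
    · obtain ⟨a, rfl⟩ := he
      obtain ⟨b, rfl⟩ := he'
      have h2 : 2 ∣ a * b := by
        obtain ⟨k, hk⟩ := h8
        exact ⟨k, by nlinarith⟩
      rcases (Nat.Prime.dvd_mul Nat.prime_two).mp h2 with ⟨k, rfl⟩ | ⟨k, rfl⟩
      · have := tiling_rot (A b k)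
        rwa [show 4 * k = 2 * k + 2 * k by ring, two_mul b] at this
      · have := A a k
        rwa [show 4 * k = 2 * k + 2 * k by ring, two_mul a] at this
    · have h4 : 8 ∣ m := (Nat.Coprime.dvd_mul_right (by
        have : Nat.Coprime 2 n := Nat.coprime_two_left.mpr ho'
        exact Nat.Coprime.pow_left 3 this)).mp h8
      obtain ⟨k, rfl⟩ := h4
      obtain ⟨j, rfl⟩ := ho'
      have := tiling_rot (B (j - 2) k)
      rwa [show 5 + 2 * (j - 2) = 2 * j + 1 by omega] at this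
  · have h4 : 8 ∣ n := (Nat.Coprime.dvd_mul_left (by
      have : Nat.Coprime 2 m := Nat.coprime_two_left.mpr ho
      exact Nat.Coprime.pow_left 3 this)).mp h8
    obtain ⟨k, rfl⟩ := h4
    obtain ⟨j, rfl⟩ := ho
    have := B (j - 2) k
    rwa [show 5 + 2 * (j - 2) = 2 * j + 1 by omega] at this

/-! ### Necessity: the stripe colouring -/

/-- `1` on even numbers, `-1` on odd numbers -/
def sg (x : ℤ) : ℤ := if x % 2 = 0 then 1 else -1

theorem sg_succ (x : ℤ) : sg (x + 1) = - sg x := by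
  unfold sg
  split_ifs <;> omega

theorem sg_pred (x : ℤ) : sg (x - 1) = - sg x := by
  unfold sg
  split_ifs <;> omega

theorem sg_two (x : ℤ) : sg (x + 2) = sg x := by
  unfold sg
  split_ifs <;> omega

theorem sg_two' (x : ℤ) : sg (x - 2) = sg x := by
  unfold sg
  split_ifs <;> omega

theorem sg_cases (x : ℤ) : sg x = 1 ∨ sg x = -1 := by
  unfold sg
  split_ifs <;> simp

theorem tile_eq (c : Bool) (k : ℕ) (v : ℤ × ℤ) (w : ℤ × ℤ → ℤ) :
    ∑ p ∈ tile c k v, w p = w (rot^[k % 4] (0, 0) + v) + w (rot^[k % 4] (1, 0) + v) +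
      w (rot^[k % 4] (2, 0) + v) + w (rot^[k % 4] (0, if c then 1 else -1) + v) := by
  rw [tile_mod, sum_tile]
  cases c <;> simp [base] <;> ring

theorem tile_sum_fst (c : Bool) (k : ℕ) (v : ℤ × ℤ) :
    ∑ p ∈ tile c k v, sg p.1 = 2 ∨ ∑ p ∈ tile c k v, sg p.1 = -2 := by
  rw [tile_eq]
  obtain ⟨x, y⟩ := v
  have h4 : k % 4 = 0 ∨ k % 4 = 1 ∨ k % 4 = 2 ∨ k % 4 = 3 := by omega
  rcases h4 with h | h | h | h <;> rw [h] <;> cases c <;>
    simp [rot, add_comm _ x, ← sub_eq_add_neg, sg_succ, sg_pred, sg_two, sg_two'] <;>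
    rcases sg_cases x with h' | h' <;> simp [h']

theorem tile_sum_snd (c : Bool) (k : ℕ) (v : ℤ × ℤ) :
    ∑ p ∈ tile c k v, sg p.2 = 2 ∨ ∑ p ∈ tile c k v, sg p.2 = -2 := by
  rw [tile_eq]
  obtain ⟨x, y⟩ := v
  have h4 : k % 4 = 0 ∨ k % 4 = 1 ∨ k % 4 = 2 ∨ k % 4 = 3 := by omega
  rcases h4 with h | h | h | h <;> rw [h] <;> cases c <;>
    simp [rot, add_comm _ y, ← sub_eq_add_neg, sg_succ, sg_pred, sg_two, sg_two'] <;>
    rcases sg_cases y with h' | h' <;> simp [h']

theorem sum_tiling {c : Bool} {R : Finset (ℤ × ℤ)} {F : Finset (Finset (ℤ × ℤ))}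
    (h : IsTiling c R F) (w : ℤ × ℤ → ℤ) : ∑ p ∈ R, w p = ∑ T ∈ F, ∑ p ∈ T, w p := by
  obtain ⟨a, b, e⟩ := h
  rw [← e, Finset.sum_biUnion]
  · rfl
  · intro T hT T' hT' hne
    exact b T hT T' hT' hne

theorem sum_sg (m : ℕ) (hm : Even m) : ∑ x ∈ Finset.Ico 0 (m : ℤ), sg x = 0 := by
  obtain ⟨k, rfl⟩ := hm
  induction k with
  | zero => simp
  | succ k ih =>
    have : Finset.Ico (0 : ℤ) ((k + 1 + (k + 1) : ℕ) : ℤ) =
        insert (((k + k : ℕ) : ℤ) + 1) (insert ((k + k : ℕ) : ℤ) (Finset.Ico 0 ((k + k : ℕ) : ℤ))) := by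
      ext x
      simp only [Finset.mem_Ico, Finset.mem_insert]
      push_cast
      omega
    rw [this, Finset.sum_insert, Finset.sum_insert, ih, sg_succ]
    · ring
    · simp
    · simp only [Finset.mem_insert, Finset.mem_Ico]
      omega

theorem eight_dvd_of {c : Bool} {m n : ℕ} {F : Finset (Finset (ℤ × ℤ))}
    (h : IsTiling c (rect m n) F) (w : ℤ × ℤ → ℤ) (hw : ∑ p ∈ rect m n, w p = 0)
    (hT : ∀ k v, ∑ p ∈ tile c k v, w p = 2 ∨ ∑ p ∈ tile c k v, w p = -2) : 8 ∣ m * n := by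
  have h1 : m * n = 4 * F.card := by
    have := sum_tiling h (fun _ => 1)
    have h2 : ∀ T ∈ F, ∑ _p ∈ T, (1 : ℤ) = 4 := by
      intro T hT'
      obtain ⟨k, v, rfl⟩ := h.1 T hT'
      rw [Finset.sum_const, card_tile]
      rfl
    rw [Finset.sum_congr rfl h2] at this
    simp only [rect, Finset.sum_const, Finset.card_product, Int.card_Ico, sub_zero,
      Int.toNat_natCast, nsmul_eq_mul, mul_one] at this
    have h3 : ((m * n : ℕ) : ℤ) = ((4 * F.card : ℕ) : ℤ) := by
      rw [this]; push_cast; ring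
    exact_mod_cast h3
  have h2 : Even F.card := by
    have h3 := sum_tiling h w
    rw [hw] at h3
    have h4 : ∀ G : Finset (Finset (ℤ × ℤ)), (∀ T ∈ G, IsCopy c T) →
        (4 : ℤ) ∣ (∑ T ∈ G, ∑ p ∈ T, w p) - 2 * (G.card : ℤ) := by
      intro G
      induction G using Finset.induction_on with
      | empty => simp
      | insert T G hTG ih =>
        intro hG
        rw [Finset.sum_insert hTG, Finset.card_insert_of_notMem hTG]
        obtain ⟨k, v, rfl⟩ := hG T (Finset.mem_insert_self _ _)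
        have := ih fun T' hT' => hG T' (Finset.mem_insert_of_mem hT')
        push_cast
        rcases hT k v with h' | h' <;> rw [h'] <;> omega
    have h5 := h4 F h.1
    rw [← h3] at h5
    rw [← Int.even_coe_nat, Int.even_iff]
    omega
  obtain ⟨k, hk⟩ := h2
  exact ⟨k, by omega⟩

theorem eight_dvd {c : Bool} {m n : ℕ} {F : Finset (Finset (ℤ × ℤ))}
    (h : IsTiling c (rect m n) F) : 8 ∣ m * n := by
  rcases Nat.even_or_odd m with he | ho
  · refine eight_dvd_of h (fun p => sg p.1) ?_ (tile_sum_fst c)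
    rw [rect, Finset.sum_product]
    simp only [Finset.sum_const, ← Finset.smul_sum, sum_sg m he, smul_zero]
  · have he' : Even n := by
      have h1 : m * n = 4 * F.card := by
        have := sum_tiling h (fun _ => 1)
        have h2 : ∀ T ∈ F, ∑ _p ∈ T, (1 : ℤ) = 4 := by
          intro T hT'
          obtain ⟨k, v, rfl⟩ := h.1 T hT'
          rw [Finset.sum_const, card_tile]
          rfl
        rw [Finset.sum_congr rfl h2] at this
        simp only [rect, Finset.sum_const, Finset.card_product, Int.card_Ico, sub_zero,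
          Int.toNat_natCast, nsmul_eq_mul, mul_one] at this
        have h3 : ((m * n : ℕ) : ℤ) = ((4 * F.card : ℕ) : ℤ) := by
          rw [this]; push_cast; ring
        exact_mod_cast h3
      have h2 : Even (m * n) := by rw [h1]; exact ⟨2 * F.card, by ring⟩
      rcases Nat.even_mul.mp h2 with h' | h'
      · exact absurd h' (Nat.not_even_iff_odd.mpr ho)
      · exact h'
    refine eight_dvd_of h (fun p => sg p.2) ?_ (tile_sum_snd c)
    rw [rect, Finset.sum_product]
    simp only [sum_sg n he', Finset.sum_const_zero]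

/-! ### Necessity: thin rectangles -/

/-- the copies that contain the cell `p` -/
def cands (c : Bool) (p : ℤ × ℤ) : List (Finset (ℤ × ℤ)) :=
  [0, 1, 2, 3].flatMap fun k => [((0 : ℤ), (0 : ℤ)), (1, 0), (2, 0), (0, if c then 1 else -1)].map
    fun q => tile c k (p - rot^[k] q)

theorem mem_cands {c : Bool} {T : Finset (ℤ × ℤ)} (hT : IsCopy c T) {p : ℤ × ℤ} (hp : p ∈ T) :
    T ∈ cands c p := by
  obtain ⟨k, v, rfl⟩ := hT
  rw [tile_mod] at hp ⊢
  obtain ⟨q, hq, hqp⟩ := (mem_tile _ _ _ _).mp hp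
  have hv : v = p - rot^[k % 4] q := by rw [← hqp]; abel
  rw [hv]
  have h4 : k % 4 = 0 ∨ k % 4 = 1 ∨ k % 4 = 2 ∨ k % 4 = 3 := by omega
  have hq' : q = (0, 0) ∨ q = (1, 0) ∨ q = (2, 0) ∨ q = (0, if c then 1 else -1) := by
    cases c <;> simpa [base] using hq
  unfold cands
  rw [List.mem_flatMap]
  refine ⟨k % 4, by rcases h4 with h | h | h | h <;> rw [h] <;> simp, ?_⟩
  rw [List.mem_map]
  exact ⟨q, by rcases hq' with h | h | h | h <;> rw [h] <;> simp, rfl⟩

/-- a backtracking search: `true` when no family of disjoint copies inside the strip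
`0 ≤ x < a`, `0 ≤ y` extends the covered set `U` to a covering of the listed cells -/
def dead (c : Bool) (a : ℤ) : ℕ → List (ℤ × ℤ) → Finset (ℤ × ℤ) → Bool
  | 0, _, _ => false
  | _ + 1, [], _ => false
  | fuel + 1, p :: ps, U =>
    if p ∈ U then dead c a fuel ps U else
      (cands c p).all fun T => (!(decide (∀ q ∈ T, 0 ≤ q.1 ∧ q.1 < a ∧ 0 ≤ q.2 ∧ q ∉ U))) ||
        dead c a fuel ps (U ∪ T)

theorem dead_sound {c : Bool} {a n : ℕ} {F : Finset (Finset (ℤ × ℤ))}
    (h : IsTiling c (rect a n) F) : ∀ (fuel : ℕ) (ps : List (ℤ × ℤ)) (U : Finset (ℤ × ℤ)),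
      (∀ p ∈ ps, p ∈ rect a n) → (∀ T ∈ F, Disjoint T U ∨ T ⊆ U) → dead c a fuel ps U = false := by
  intro fuel
  induction fuel with
  | zero => intro ps U _ _; rfl
  | succ fuel ih =>
    intro ps U hps hU
    cases ps with
    | nil => rfl
    | cons p ps =>
      rw [dead]
      split_ifs with hpU
      · exact ih ps U (fun q hq => hps q (List.mem_cons_of_mem _ hq)) hU
      · have hp := hps p List.mem_cons_self
        rw [← h.2.2] at hp
        obtain ⟨T, hT, hpT⟩ := Finset.mem_biUnion.mp hp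
        rw [id_eq] at hpT
        rw [List.all_eq_false]
        refine ⟨T, mem_cands (h.1 T hT) hpT, ?_⟩
        have hTU : Disjoint T U := by
          rcases hU T hT with h' | h'
          · exact h'
          · exact absurd (h' hpT) hpU
        have h1 : dead c a fuel ps (U ∪ T) = false := by
          refine ih ps (U ∪ T) (fun q hq => hps q (List.mem_cons_of_mem _ hq)) ?_
          intro T' hT'
          by_cases he : T' = T
          · subst he
            exact Or.inr Finset.subset_union_right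
          · rcases hU T' hT' with h' | h'
            · left
              rw [Finset.disjoint_union_right]
              exact ⟨h', h.2.1 T' hT' T hT he⟩
            · exact Or.inr (h'.trans Finset.subset_union_left)
        have h2 : decide (∀ q ∈ T, 0 ≤ q.1 ∧ q.1 < (a : ℤ) ∧ 0 ≤ q.2 ∧ q ∉ U) = true := by
          rw [decide_eq_true_eq]
          intro q hq
          have hqR : q ∈ rect a n := by
            rw [← h.2.2]
            exact Finset.mem_biUnion.mpr ⟨T, hT, hq⟩
          simp only [rect, Finset.mem_product, Finset.mem_Ico] at hqR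
          exact ⟨hqR.1.1, hqR.1.2, hqR.2.1, Finset.disjoint_left.mp hTU hq⟩
        rw [h1, h2]
        decide

/-- the cells of the first five rows of a strip of width three -/
def cells3 : List (ℤ × ℤ) :=
  [(0,0),(1,0),(2,0),(0,1),(1,1),(2,1),(0,2),(1,2),(2,2),(0,3),(1,3),(2,3),(0,4),(1,4),(2,4)]

theorem no_three {c : Bool} {n : ℕ} (hn : 5 ≤ n) {F : Finset (Finset (ℤ × ℤ))}
    (h : IsTiling c (rect 3 n) F) : False := by
  have h1 := dead_sound h 16 cells3 ∅ (by
    intro p hp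
    simp only [cells3, List.mem_cons, List.not_mem_nil, or_false] at hp
    simp only [rect, Finset.mem_product, Finset.mem_Ico]
    rcases hp with rfl | rfl | rfl | rfl | rfl | rfl | rfl | rfl | rfl | rfl | rfl | rfl | rfl |
      rfl | rfl <;> simp <;> omega) (fun T _ => Or.inl (Finset.disjoint_empty_right T))
  have h2 : ∀ c, dead c 3 16 cells3 ∅ = true := by decide +kernel
  have h3 := h2 c
  push_cast at h1
  rw [h1] at h3
  exact absurd h3 (by decide)

theorem no_one {c : Bool} {n : ℕ} (hn : 1 ≤ n) {F : Finset (Finset (ℤ × ℤ))}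
    (h : IsTiling c (rect 1 n) F) : False := by
  have h1 := dead_sound h 2 [(0, 0)] ∅ (by
    intro p hp
    simp only [List.mem_cons, List.not_mem_nil, or_false] at hp
    simp only [rect, Finset.mem_product, Finset.mem_Ico, hp]
    simp; omega) (fun T _ => Or.inl (Finset.disjoint_empty_right T))
  have h2 : ∀ c, dead c 1 2 [(0, 0)] ∅ = true := by decide +kernel
  have h3 := h2 c
  push_cast at h1
  rw [h1] at h3
  exact absurd h3 (by decide)

/-- **Main result.** For all `m, n ≥ 1`, the `m × n` rectangle has a tiling by L-tetrominoes all of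
the same orientation if and only if `m, n ≥ 2`, `m, n ≠ 3` and `8 ∣ mn`. In particular the `5 × 8`
rectangle has such a tiling, so the proposed characterisation (one side divisible by `4`, the other
even) is false. -/
theorem result :
    (∀ m n : ℕ, 1 ≤ m → 1 ≤ n →
      (OneHanded m n ↔ 2 ≤ m ∧ 2 ≤ n ∧ m ≠ 3 ∧ n ≠ 3 ∧ 8 ∣ m * n)) ∧
    OneHanded 5 8 ∧
    ¬ (∀ m n : ℕ, 1 ≤ m → 1 ≤ n → (OneHanded m n ↔ (4 ∣ m ∧ 2 ∣ n) ∨ (4 ∣ n ∧ 2 ∣ m))) := by
  refine ⟨?_, ⟨true, _, tiling58⟩, ?_⟩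
  · intro m n hm hn
    constructor
    · rintro ⟨c, F, h⟩
      have h8 := eight_dvd h
      obtain ⟨F', h'⟩ := tiling_rot ⟨F, h⟩
      refine ⟨?_, ?_, ?_, ?_, h8⟩
      · by_contra hc
        have : m = 1 := by omega
        subst this
        exact no_one hn h
      · by_contra hc
        have : n = 1 := by omega
        subst this
        exact no_one hm h'
      · rintro rfl
        refine no_three ?_ h
        obtain ⟨k, hk⟩ := h8
        omega
      · rintro rfl
        refine no_three ?_ h'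
        obtain ⟨k, hk⟩ := h8
        omega
    · rintro ⟨h1, h2, h3, h4, h5⟩
      exact ⟨true, exists_tiling m n h1 h2 h3 h4 h5⟩
  · intro h
    have := (h 5 8 (by omega) (by omega)).mp ⟨true, _, tiling58⟩
    omega

end Pool.Agent.Results.MP_7a8221_co.OneHandedL
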